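import Mathlib
import Pool.Agent.Lib.MP_ff3c98_co.Base

set_option autoImplicit false

namespace Pool.Agent.Results.MP_ff3c98_co.CostBounded

/-- The 2-colouring `c` of the vertices of `G` is distinguishing: the identity is the only
automorphism of `G` that maps every vertex to a vertex of the same colour. -/
def IsDistinguishing {V : Type} (G : SimpleGraph V) (c : V → Bool) : Prop :=
  ∀ φ : G ≃g G, (∀ v, c (φ v) = c v) → ∀ v, φ v = v

/-- `G` is 2-distinguishable. -/
def TwoDistinguishable {V : Type} (G : SimpleGraph V) : Prop :=
  ∃ c : V → Bool, IsDistinguishing G c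

/-- `S` is a determining set of `G`: the identity is the only automorphism fixing every vertex
of `S`. -/
def IsDetermining {V : Type} (G : SimpleGraph V) (S : Finset V) : Prop :=
  ∀ φ : G ≃g G, (∀ v ∈ S, φ v = v) → ∀ v, φ v = v

/-- The determining number: the least size of a determining set. -/
noncomputable def Det {V : Type} (G : SimpleGraph V) : ℕ :=
  sInf {k | ∃ S : Finset V, S.card = k ∧ IsDetermining G S}

/-- `S` is a distinguishing class of `G`: a colour class of some distinguishing 2-colouring. -/
def IsDistinguishingClass {V : Type} (G : SimpleGraph V) (S : Finset V) : Prop :=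
  ∃ c : V → Bool, IsDistinguishing G c ∧ ∃ b : Bool, ∀ v, v ∈ S ↔ c v = b

/-- The cost number `ρ(G)`: the least size of a distinguishing class. -/
noncomputable def cost {V : Type} (G : SimpleGraph V) : ℕ :=
  sInf {k | ∃ S : Finset V, S.card = k ∧ IsDistinguishingClass G S}

/-- For every `d` the cost number of all 2-distinguishable finite graphs with determining number
`d` is bounded by a constant depending on `d` only. -/
theorem result : ∀ d : ℕ, ∃ C : ℕ, ∀ (V : Type) [Fintype V] (G : SimpleGraph V),
    TwoDistinguishable G → Det G = d → cost G ≤ C := by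
  intro d
  obtain ⟨C, hC⟩ := Pool.Agent.Lib.MP_ff3c98_co.bounded d 0
  refine ⟨C, ?_⟩
  intro V _ G h2 hdet
  classical
  have hfin : Finite (G ≃g G) :=
    Finite.of_injective (fun φ : G ≃g G => (φ : V → V)) (fun φ ψ h => RelIso.ext (congrFun h))
  have hft : Fintype (G ≃g G) := Fintype.ofFinite _
  -- a determining set of size `d`
  have hne : {k | ∃ S : Finset V, S.card = k ∧ IsDetermining G S}.Nonempty :=
    ⟨_, Finset.univ, rfl, fun φ hφ v => hφ v (Finset.mem_univ v)⟩
  obtain ⟨S, hScard, hS⟩ := Nat.sInf_mem hne
  have hScard' : S.card = d := hScard.trans hdet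
  let b : Fin d → V := fun i => (S.equivFinOfCardEq hScard').symm i
  have hsetup : Pool.Agent.Lib.MP_ff3c98_co.Setup (G ≃g G) d (∅ : Finset V) b := by
    constructor
    · intro g v hv
      exact absurd hv (Finset.notMem_empty v)
    · intro g _ hg
      apply RelIso.ext
      apply hS g
      intro v hv
      have := hg (S.equivFinOfCardEq hScard' ⟨v, hv⟩)
      simpa [b] using this
  obtain ⟨c, hc⟩ := h2
  obtain ⟨T, hT1, hT2⟩ := hC (G ≃g G) V ∅ b hsetup (by simp) (by
    refine ⟨Finset.univ.filter (fun v => c v = true), fun g hg => ?_⟩
    apply RelIso.ext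
    apply hc g
    -- `g` maps the class into itself, hence onto itself
    have himg : (Finset.univ.filter (fun v => c v = true)).image g =
        Finset.univ.filter (fun v => c v = true) := by
      apply Finset.eq_of_subset_of_card_le
      · intro w hw
        obtain ⟨v, hv, rfl⟩ := Finset.mem_image.1 hw
        exact hg v hv
      · rw [Finset.card_image_of_injective _ g.injective]
    intro v
    cases hcv : c v
    · cases hgv : c (g v)
      · rfl
      · exfalso
        have : g v ∈ (Finset.univ.filter (fun v => c v = true)).image g := by
          rw [himg]; simp [hgv]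
        obtain ⟨w, hw, hwv⟩ := Finset.mem_image.1 this
        have := g.injective hwv
        subst this
        simp [hcv] at hw
    · have := hg v (by simp [hcv])
      simpa using this)
  refine le_trans (Nat.sInf_le ⟨T, rfl, fun v => decide (v ∈ T), ?_, true, ?_⟩) hT1
  · intro φ hφ v
    have h1 : φ = 1 := by
      apply hT2 φ
      intro w hw
      have := hφ w
      simpa [hw] using this
    rw [h1]
    rfl
  · intro v
    simp

end Pool.Agent.Results.MP_ff3c98_co.CostBounded
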